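import Mathlib

set_option autoImplicit false

namespace Pool.Agent.Results.MP_e7655a_nt.CoprimeToSix

theorem nonneg (p : ℕ) (a : ℕ → ℤ) (ha1 : a 1 = 1)
    (ha : ∀ n : ℕ, 2 ≤ n →
      a n = |a (n - 1) - ((Int.gcd (a (n - 1)) ((n : ℤ) ^ p - 1) : ℕ) : ℤ)|) :
    ∀ n, 1 ≤ n → 0 ≤ a n := by
  intro n hn
  rcases (show n = 1 ∨ 2 ≤ n by omega) with h | h
  · rw [h, ha1]; norm_num
  · rw [ha n h]; exact abs_nonneg _

theorem at_two (p : ℕ) (a : ℕ → ℤ) (ha1 : a 1 = 1)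
    (ha : ∀ n : ℕ, 2 ≤ n →
      a n = |a (n - 1) - ((Int.gcd (a (n - 1)) ((n : ℤ) ^ p - 1) : ℕ) : ℤ)|) : a 2 = 0 := by
  rw [ha 2 le_rfl]
  norm_num [ha1]

theorem after_zero (p : ℕ) (a : ℕ → ℤ)
    (ha : ∀ n : ℕ, 2 ≤ n →
      a n = |a (n - 1) - ((Int.gcd (a (n - 1)) ((n : ℤ) ^ p - 1) : ℕ) : ℤ)|)
    (n : ℕ) (hn : 2 ≤ n) (h0 : a (n - 1) = 0) : a n = (n : ℤ) ^ p - 1 := by
  rw [ha n hn, h0]
  have h1 : (1 : ℤ) ≤ (n : ℤ) ^ p := one_le_pow₀ (by exact_mod_cast (by omega : 1 ≤ n))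
  rw [Int.gcd_zero_left, zero_sub, abs_neg]
  rw [Int.natCast_natAbs, abs_abs, abs_of_nonneg (by linarith)]

theorem abs_mod2 (x : ℤ) : |x| % 2 = x % 2 := by
  rcases abs_choice x with h | h <;> rw [h] <;> omega

theorem parity (p : ℕ) (hp : p ≠ 0) (a : ℕ → ℤ) (ha1 : a 1 = 1)
    (ha : ∀ n : ℕ, 2 ≤ n →
      a n = |a (n - 1) - ((Int.gcd (a (n - 1)) ((n : ℤ) ^ p - 1) : ℕ) : ℤ)|) :
    ∀ n : ℕ, 3 ≤ n → a n % 2 = ((n : ℤ) + 1) % 2 := by
  intro n hn
  induction n, hn using Nat.le_induction with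
  | base =>
    rw [after_zero p a ha 3 (by norm_num) (at_two p a ha1 ha)]
    have h1 : ((3 : ℕ) : ℤ) ^ p % 2 = 1 := by
      have : Odd (((3 : ℕ) : ℤ) ^ p) := Odd.pow (by decide)
      exact Int.odd_iff.1 this
    omega
  | succ n hn ih =>
    rw [ha (n + 1) (by omega), abs_mod2]
    have e : n + 1 - 1 = n := by omega
    rw [e]
    set g := Int.gcd (a n) (((n + 1 : ℕ) : ℤ) ^ p - 1) with hg
    have g1 : ((g : ℕ) : ℤ) ∣ a n := Int.gcd_dvd_left _ _
    have g2 : ((g : ℕ) : ℤ) ∣ ((n + 1 : ℕ) : ℤ) ^ p - 1 := Int.gcd_dvd_right _ _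
    have hodd : ((g : ℕ) : ℤ) % 2 = 1 := by
      rcases Nat.even_or_odd n with h | h
      · have h' := Nat.even_iff.1 h
        obtain ⟨c, hc⟩ := g1
        by_contra hcon
        have h2 : ((g : ℕ) : ℤ) % 2 = 0 := by omega
        have h3 : a n % 2 = 0 := by
          rw [hc, Int.mul_emod, h2]; simp
        omega
      · have h' := Nat.odd_iff.1 h
        obtain ⟨c, hc⟩ := g2
        by_contra hcon
        have h2 : ((g : ℕ) : ℤ) % 2 = 0 := by omega
        have h3 : (((n + 1 : ℕ) : ℤ) ^ p - 1) % 2 = 0 := by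
          rw [hc, Int.mul_emod, h2]; simp
        have h4 : ((n + 1 : ℕ) : ℤ) ^ p % 2 = 0 := by
          have : Even (((n + 1 : ℕ) : ℤ) ^ p) := by
            rw [Int.even_pow]
            exact ⟨by rw [Int.even_iff]; push_cast; omega, hp⟩
          exact Int.even_iff.1 this
        omega
    push_cast
    omega

/-- For every prime `p`, every zero `n > 2` of `a_p` is odd and `q_p(n) = ((n+1)^p-1)/n` is odd; if
moreover `a_p(n-1) = 1`, then neither `n` nor `q_p(n)` is divisible by `3`. -/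
theorem result :
    ∀ p : ℕ, p.Prime → ∀ a : ℕ → ℤ, a 1 = 1 →
      (∀ n : ℕ, 2 ≤ n →
        a n = |a (n - 1) - ((Int.gcd (a (n - 1)) ((n : ℤ) ^ p - 1) : ℕ) : ℤ)|) →
      ∀ n : ℕ, 2 < n → a n = 0 →
        (¬ 2 ∣ n ∧ ¬ 2 ∣ ((n + 1) ^ p - 1) / n) ∧
        (a (n - 1) = 1 → ¬ 3 ∣ n ∧ ¬ 3 ∣ ((n + 1) ^ p - 1) / n) := by
  intro p hp a ha1 ha n hn h0
  have hp2 := hp.two_le
  have hpar := parity p (by omega) a ha1 ha
  have hnn := nonneg p a ha1 ha
  have hodd : n % 2 = 1 := by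
    have := hpar n (by omega)
    rw [h0] at this
    omega
  have hdvd : n ∣ (n + 1) ^ p - 1 := by
    have := Nat.sub_dvd_pow_sub_pow (n + 1) 1 p
    simpa using this
  have hq : n * (((n + 1) ^ p - 1) / n) = (n + 1) ^ p - 1 := Nat.mul_div_cancel' hdvd
  have h1p : 1 ≤ (n + 1) ^ p := Nat.one_le_pow _ _ (by omega)
  refine ⟨⟨by omega, ?_⟩, ?_⟩
  · intro h
    have h1 : 2 ∣ (n + 1) ^ p - 1 := by
      rw [← hq]; exact Dvd.dvd.mul_left h n
    have h2 : 2 ∣ (n + 1) ^ p := dvd_pow (by omega) (by omega)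
    omega
  · intro h1
    have hn5 : 5 ≤ n := by
      rcases (show n = 3 ∨ 5 ≤ n by omega) with h | h
      · subst h
        have := after_zero p a ha 3 (by norm_num) (at_two p a ha1 ha)
        rw [h0] at this
        have h3 : (3 : ℤ) ^ 2 ≤ 3 ^ p := pow_le_pow_right₀ (by norm_num) hp2
        push_cast at this
        linarith
      · exact h
    -- `a (n-2) = 2`
    have s1 : a (n - 2) = 2 := by
      have e := ha (n - 1) (by omega)
      have e' : n - 1 - 1 = n - 2 := by omega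
      rw [e', h1] at e
      have hz : a (n - 2) ≠ 0 := by
        intro hz
        have := after_zero p a ha (n - 1) (by omega) (by rw [e']; exact hz)
        rw [h1] at this
        have h3 : ((n - 1 : ℕ) : ℤ) ^ 2 ≤ ((n - 1 : ℕ) : ℤ) ^ p :=
          pow_le_pow_right₀ (by exact_mod_cast (by omega : 1 ≤ n - 1)) hp2
        have h4 : (4 : ℤ) ≤ ((n - 1 : ℕ) : ℤ) := by exact_mod_cast (by omega : 4 ≤ n - 1)
        nlinarith
      have hpos : 0 < a (n - 2) := lt_of_le_of_ne (hnn _ (by omega)) (Ne.symm hz)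
      set g := Int.gcd (a (n - 2)) (((n - 1 : ℕ) : ℤ) ^ p - 1) with hg
      have g1 : ((g : ℕ) : ℤ) ∣ a (n - 2) := Int.gcd_dvd_left _ _
      have g2 : ((g : ℕ) : ℤ) ≤ a (n - 2) := Int.le_of_dvd hpos g1
      rw [abs_of_nonneg (by linarith)] at e
      have g3 : ((g : ℕ) : ℤ) ∣ 1 := by
        rw [e]; exact dvd_sub g1 dvd_rfl
      have g4 : ((g : ℕ) : ℤ) = 1 := by
        have := Int.natAbs_dvd_natAbs.2 g3
        simp at this
        exact_mod_cast this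
      linarith
    -- `a (n-3) = 3`
    have e3' : n - 2 - 1 = n - 3 := by omega
    have key : a (n - 3) = 3 ∧ Int.gcd (a (n - 3)) (((n - 2 : ℕ) : ℤ) ^ p - 1) = 1 := by
      have e := ha (n - 2) (by omega)
      rw [e3', s1] at e
      have hz : a (n - 3) ≠ 0 := by
        intro hz
        have := after_zero p a ha (n - 2) (by omega) (by rw [e3']; exact hz)
        rw [s1] at this
        have h3 : ((n - 2 : ℕ) : ℤ) ^ 2 ≤ ((n - 2 : ℕ) : ℤ) ^ p :=
          pow_le_pow_right₀ (by exact_mod_cast (by omega : 1 ≤ n - 2)) hp2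
        have h4 : (3 : ℤ) ≤ ((n - 2 : ℕ) : ℤ) := by exact_mod_cast (by omega : 3 ≤ n - 2)
        nlinarith
      have hn6 : 3 ≤ n - 3 := by
        rcases (show n - 3 = 2 ∨ 3 ≤ n - 3 by omega) with h | h
        · rw [h] at hz
          exact absurd (at_two p a ha1 ha) hz
        · exact h
      have hpos : 0 < a (n - 3) := lt_of_le_of_ne (hnn _ (by omega)) (Ne.symm hz)
      have hp3 := hpar (n - 3) hn6
      set g := Int.gcd (a (n - 3)) (((n - 2 : ℕ) : ℤ) ^ p - 1) with hg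
      have g1 : ((g : ℕ) : ℤ) ∣ a (n - 3) := Int.gcd_dvd_left _ _
      have g2 : ((g : ℕ) : ℤ) ≤ a (n - 3) := Int.le_of_dvd hpos g1
      rw [abs_of_nonneg (by linarith)] at e
      have g3 : ((g : ℕ) : ℤ) ∣ 2 := by
        rw [e]; exact dvd_sub g1 dvd_rfl
      have g4 : g ∣ 2 := by exact_mod_cast g3
      have g5 : g ≤ 2 := Nat.le_of_dvd (by norm_num) g4
      have hcast : ((n - 3 : ℕ) : ℤ) = (n : ℤ) - 3 := by
        rw [Nat.cast_sub (by omega)]; norm_num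
      rw [hcast] at hp3
      have hn' : (n : ℤ) % 2 = 1 := by omega
      have g6 : g ≠ 0 := by
        rintro h
        rw [h] at g3
        norm_num at g3
      have g7 : g = 1 := by omega
      constructor
      · rw [g7] at e; push_cast at e; linarith
      · exact g7
    have h3 : ¬ (3 : ℤ) ∣ ((n - 2 : ℕ) : ℤ) ^ p - 1 := by
      intro hd
      have h4 : (3 : ℤ) ∣ (Int.gcd (a (n - 3)) (((n - 2 : ℕ) : ℤ) ^ p - 1) : ℤ) :=
        Int.dvd_coe_gcd (by rw [key.1]) hd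
      rw [key.2] at h4
      norm_num at h4
    have h4 : ¬ 3 ∣ (n + 1) ^ p - 1 := by
      intro hd
      apply h3
      have h5 : (3 : ℤ) ∣ ((n + 1 : ℕ) : ℤ) ^ p - 1 := by
        have : ((3 : ℕ) : ℤ) ∣ (((n + 1) ^ p - 1 : ℕ) : ℤ) := by exact_mod_cast hd
        rw [Nat.cast_sub h1p] at this
        push_cast at this ⊢
        exact this
      have h6 : ((n + 1 : ℕ) : ℤ) - ((n - 2 : ℕ) : ℤ) ∣
          ((n + 1 : ℕ) : ℤ) ^ p - ((n - 2 : ℕ) : ℤ) ^ p := sub_dvd_pow_sub_pow _ _ _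
      have h7 : ((n + 1 : ℕ) : ℤ) - ((n - 2 : ℕ) : ℤ) = 3 := by
        rw [Nat.cast_sub (by omega)]; push_cast; ring
      rw [h7] at h6
      have h8 := dvd_sub h5 h6
      have h9 : ((n + 1 : ℕ) : ℤ) ^ p - 1 - (((n + 1 : ℕ) : ℤ) ^ p - ((n - 2 : ℕ) : ℤ) ^ p) =
          ((n - 2 : ℕ) : ℤ) ^ p - 1 := by ring
      rw [h9] at h8
      exact h8
    rw [← hq] at h4
    exact ⟨fun h => h4 (Dvd.dvd.mul_right h _), fun h => h4 (Dvd.dvd.mul_left h _)⟩

end Pool.Agent.Results.MP_e7655a_nt.CoprimeToSix
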